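import Pool.Agent.Helper26.RP.Goals

/-!
# MO3: exponentially many monotone polygons
-/

noncomputable section

namespace RP.PkMO3

open MeasureTheory Finset

/-- Abstract version of the condition on the heights. -/
theorem nc_abs (n : ℕ) (hn : 6 ≤ n) (T : ℕ → Bool) (Y : ℕ → ℝ)
    (t0 : T 0 = false) (t1 : T 1 = false) (t2 : T 2 = true)
    (t3 : T (n - 1) = false) (t4 : T (n - 2) = false) (t5 : T (n - 3) = true)
    (y0 : 1 / 4 < Y 0) (y0' : Y 0 < 3 / 4) (y1 : Y 1 < 1 / 4) (y2 : 3 / 4 < Y 2)
    (y3 : 1 / 4 < Y (n - 1)) (y3' : Y (n - 1) < 3 / 4) (y4 : Y (n - 2) < 1 / 4)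
    (y5 : 3 / 4 < Y (n - 3))
    (hT : ∀ i, 3 ≤ i → i < n - 3 → T i = true → 1 / 2 < Y i ∨
      (1 / 4 < Y i ∧ T (i - 1) = false ∧ Y (i - 1) < 1 / 4 ∧ T (i + 1) = false ∧
        Y (i + 1) < 1 / 4 ∧ T (i - 2) = true ∧ T (i + 2) = true))
    (hF : ∀ i, 3 ≤ i → i < n - 3 → T i = false → Y i < 1 / 2) :
    (∀ i k j, i < k → k < j → j < n → T i = false → T j = false →
      (∀ l, i < l → l < j → T l = true) → Y i < Y k ∧ Y j < Y k) ∧
    (∀ i k j, i < k → k < j → j < n → (T i = true ∨ i = 0) → (T j = true ∨ j + 1 = n) →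
      (∀ l, i < l → l < j → T l = false) → Y k < Y i ∧ Y k < Y j) := by
  -- all `false` points are below `3/4`, below `1/2` if they are not an end
  have hFall : ∀ i, i < n → T i = false → (i = 0 ∨ i = n - 1) ∨ Y i < 1 / 2 := by
    intro i hi hTi
    by_cases h0 : i = 0
    · exact Or.inl (Or.inl h0)
    by_cases h1 : i = n - 1
    · exact Or.inl (Or.inr h1)
    right
    by_cases h2 : i = 1
    · subst h2; linarith
    by_cases h3 : i = n - 2
    · subst h3; linarith
    by_cases h4 : i = 2
    · subst h4; rw [t2] at hTi; simp at hTi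
    by_cases h5 : i = n - 3
    · subst h5; rw [t5] at hTi; simp at hTi
    exact hF i (by omega) (by omega) hTi
  have hF34 : ∀ i, i < n → T i = false → Y i < 3 / 4 := by
    intro i hi hTi
    rcases hFall i hi hTi with (rfl | rfl) | h
    · exact y0'
    · exact y3'
    · linarith
  have hT14 : ∀ i, i < n → T i = true → 1 / 4 < Y i := by
    intro i hi hTi
    by_cases h4 : i = 2
    · subst h4; linarith
    by_cases h5 : i = n - 3
    · subst h5; linarith
    have a0 : i ≠ 0 := by rintro rfl; rw [t0] at hTi; simp at hTi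
    have a1 : i ≠ 1 := by rintro rfl; rw [t1] at hTi; simp at hTi
    have a2 : i ≠ n - 1 := by rintro rfl; rw [t3] at hTi; simp at hTi
    have a3 : i ≠ n - 2 := by rintro rfl; rw [t4] at hTi; simp at hTi
    rcases hT i (by omega) (by omega) hTi with h | h
    · linarith
    · exact h.1
  have hT12 : ∀ i, i < n → T i = true → 1 / 2 < Y i ∨
      (3 ≤ i ∧ i < n - 3 ∧ T (i - 1) = false ∧ Y (i - 1) < 1 / 4 ∧ T (i + 1) = false ∧
        Y (i + 1) < 1 / 4 ∧ T (i - 2) = true ∧ T (i + 2) = true) := by
    intro i hi hTi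
    by_cases h4 : i = 2
    · subst h4; left; linarith
    by_cases h5 : i = n - 3
    · subst h5; left; linarith
    have a0 : i ≠ 0 := by rintro rfl; rw [t0] at hTi; simp at hTi
    have a1 : i ≠ 1 := by rintro rfl; rw [t1] at hTi; simp at hTi
    have a2 : i ≠ n - 1 := by rintro rfl; rw [t3] at hTi; simp at hTi
    have a3 : i ≠ n - 2 := by rintro rfl; rw [t4] at hTi; simp at hTi
    rcases hT i (by omega) (by omega) hTi with h | h
    · left; exact h
    · right; exact ⟨by omega, by omega, h.2⟩
  constructor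
  · intro i k j hik hkj hj hTi hTj hl
    have hTk : T k = true := hl k hik hkj
    have hYi := hF34 i (by omega) hTi
    have hYj := hF34 j hj hTj
    by_cases h4 : k = 2
    · subst h4; constructor <;> linarith
    by_cases h5 : k = n - 3
    · subst h5; constructor <;> linarith
    have a1 : k ≠ 1 := by rintro rfl; rw [t1] at hTk; simp at hTk
    have a3 : k ≠ n - 2 := by rintro rfl; rw [t4] at hTk; simp at hTk
    have k3 : 3 ≤ k := by omega
    have kn : k < n - 3 := by omega
    rcases hT k k3 kn hTk with h | ⟨h1, h2, h3, h4', h5', _, _⟩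
    · have b1 : Y i < 1 / 2 := by
        rcases hFall i (by omega) hTi with (h0 | h0) | h0
        · have := hl 1 (by omega) (by omega)
          rw [t1] at this; simp at this
        · omega
        · exact h0
      have b2 : Y j < 1 / 2 := by
        rcases hFall j hj hTj with (h0 | h0) | h0
        · omega
        · have := hl (n - 2) (by omega) (by omega)
          rw [t4] at this; simp at this
        · exact h0
      constructor <;> linarith
    · have c1 : i = k - 1 := by
        by_contra hne
        have := hl (k - 1) (by omega) (by omega)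
        rw [h2] at this; simp at this
      have c2 : j = k + 1 := by
        by_contra hne
        have := hl (k + 1) (by omega) (by omega)
        rw [h4'] at this; simp at this
      subst c1; subst c2
      constructor <;> linarith
  · intro i k j hik hkj hj hTi hTj hl
    have hTk : T k = false := hl k hik hkj
    have hYi : 1 / 4 < Y i := by
      rcases hTi with h | h
      · exact hT14 i (by omega) h
      · subst h; exact y0
    have hYj : 1 / 4 < Y j := by
      rcases hTj with h | h
      · exact hT14 j (by omega) h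
      · have : j = n - 1 := by omega
        subst this; exact y3
    by_cases h4 : k = 1
    · subst h4; constructor <;> linarith
    by_cases h5 : k = n - 2
    · subst h5; constructor <;> linarith
    have a1 : k ≠ 2 := by rintro rfl; rw [t2] at hTk; simp at hTk
    have a3 : k ≠ n - 3 := by rintro rfl; rw [t5] at hTk; simp at hTk
    have k3 : 3 ≤ k := by omega
    have kn : k < n - 3 := by omega
    have hYk : Y k < 1 / 2 := hF k k3 kn hTk
    have hi0 : i ≠ 0 := by
      rintro rfl
      have := hl 2 (by omega) (by omega)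
      rw [t2] at this; simp at this
    have hjn : j + 1 ≠ n := by
      intro hh
      have := hl (n - 3) (by omega) (by omega)
      rw [t5] at this; simp at this
    have hTi' : T i = true := by
      rcases hTi with h | h
      · exact h
      · exact absurd h hi0
    have hTj' : T j = true := by
      rcases hTj with h | h
      · exact h
      · exact absurd h hjn
    constructor
    · rcases hT12 i (by omega) hTi' with h | ⟨_, _, h1, h2, h3, h4', h5', h6⟩
      · linarith
      · have hk : k = i + 1 := by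
          by_contra hne
          by_cases hk2 : k = i + 2
          · subst hk2; rw [h6] at hTk; simp at hTk
          · have := hl (i + 2) (by omega) (by omega)
            rw [h6] at this; simp at this
        subst hk
        linarith
    · rcases hT12 j (by omega) hTj' with h | ⟨g1, g2, h1, h2, h3, h4', h5', h6⟩
      · linarith
      · have hk : k = j - 1 := by
          by_contra hne
          by_cases hk2 : k = j - 2
          · subst hk2; rw [h5'] at hTk; simp at hTk
          · have := hl (j - 2) (by omega) (by omega)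
            rw [h5'] at this; simp at this
        subst hk
        linarith

/-- The letters: the 32 standard patterns and the additional one. -/
abbrev Let : Type := Option (Fin 5 → Bool)

/-- The endpoints of the interval at place `r` of a block. -/
def Il : Let → ℕ → ℝ × ℝ
  | some t, r => if h : r < 5 then (if t ⟨r, h⟩ then (1 / 2, 1) else (0, 1 / 2)) else (0, 1 / 2)
  | none, r => if r = 0 ∨ r = 4 then (1 / 2, 1) else if r = 2 then (1 / 4, 1 / 2) else (0, 1 / 4)

/-- The pattern at place `r` of a block. -/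
def Tl : Let → ℕ → Bool
  | some t, r => if h : r < 5 then t ⟨r, h⟩ else false
  | none, r => decide (r = 0 ∨ r = 4 ∨ r = 2)

/-- Extension of a word. -/
def ex {k : ℕ} (ω : Fin k → Let) (b : ℕ) : Let := if h : b < k then ω ⟨b, h⟩ else none

/-- The intervals of a word. -/
def II {k : ℕ} (ω : Fin k → Let) (i : ℕ) : ℝ × ℝ :=
  if i = 0 then (1 / 4, 3 / 4) else if i = 1 then (0, 1 / 4) else if i = 2 then (3 / 4, 1) else
  if i < 5 * k + 3 then Il (ex ω ((i - 3) / 5)) ((i - 3) % 5) else
  if i = 5 * k + 3 then (3 / 4, 1) else if i = 5 * k + 4 then (0, 1 / 4) else (1 / 4, 3 / 4)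

/-- The pattern of a word. -/
def TT {k : ℕ} (ω : Fin k → Let) (i : ℕ) : Bool :=
  if i = 0 then false else if i = 1 then false else if i = 2 then true else
  if i < 5 * k + 3 then Tl (ex ω ((i - 3) / 5)) ((i - 3) % 5) else
  if i = 5 * k + 3 then true else false

/-- The length. -/
def len (p : ℝ × ℝ) : ℝ := p.2 - p.1

theorem Il_bd (l : Let) (r : ℕ) : 0 ≤ (Il l r).1 ∧ (Il l r).2 ≤ 1 ∧ (Il l r).1 ≤ (Il l r).2 := by
  rcases l with _ | t
  · simp only [Il]
    split_ifs <;> norm_num
  · simp only [Il]
    split_ifs <;> norm_num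

theorem II_bd {k : ℕ} (ω : Fin k → Let) (i : ℕ) :
    0 ≤ (II ω i).1 ∧ (II ω i).2 ≤ 1 ∧ (II ω i).1 ≤ (II ω i).2 := by
  unfold II
  split_ifs <;> first | exact Il_bd _ _ | norm_num

theorem prod_blocks (G : ℕ → ℝ) (k : ℕ) :
    ∏ i ∈ range (5 * k), G i = ∏ b ∈ range k, ∏ r ∈ range 5, G (5 * b + r) := by
  induction k with
  | zero => simp
  | succ k ih =>
    rw [show 5 * (k + 1) = 5 * k + 5 from by ring, prod_range_add, ih, prod_range_succ _ k]

theorem II_mid {k : ℕ} (ω : Fin k → Let) (b : ℕ) (hb : b < k) (r : ℕ) (hr : r < 5) :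
    II ω (3 + (5 * b + r)) = Il (ω ⟨b, hb⟩) r := by
  unfold II
  rw [if_neg (by omega), if_neg (by omega), if_neg (by omega), if_pos (by omega)]
  have h1 : (3 + (5 * b + r) - 3) / 5 = b := by omega
  have h2 : (3 + (5 * b + r) - 3) % 5 = r := by omega
  rw [h1, h2]
  unfold ex
  rw [dif_pos hb]

theorem TT_mid {k : ℕ} (ω : Fin k → Let) (b : ℕ) (hb : b < k) (r : ℕ) (hr : r < 5) :
    TT ω (3 + (5 * b + r)) = Tl (ω ⟨b, hb⟩) r := by
  unfold TT
  rw [if_neg (by omega), if_neg (by omega), if_neg (by omega), if_pos (by omega)]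
  have h1 : (3 + (5 * b + r) - 3) / 5 = b := by omega
  have h2 : (3 + (5 * b + r) - 3) % 5 = r := by omega
  rw [h1, h2]
  unfold ex
  rw [dif_pos hb]

/-- The weight of a letter. -/
def g (l : Let) : ℝ := ∏ r ∈ range 5, len (Il l r)

theorem g_none : g none = 1 / 256 := by
  unfold g
  simp only [prod_range_succ, range_zero, prod_empty, Il, len]
  norm_num

theorem g_some (t : Fin 5 → Bool) : g (some t) = 1 / 32 := by
  unfold g
  have : ∀ r ∈ range 5, len (Il (some t) r) = 1 / 2 := by
    intro r hr
    simp only [Il, len]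
    split_ifs <;> norm_num
  rw [prod_congr rfl this]
  norm_num

theorem sum_g : ∑ l : Let, g l = 257 / 256 := by
  rw [Fintype.sum_option, g_none]
  simp only [g_some, sum_const, card_univ, Fintype.card_pi, Fintype.card_bool, prod_const,
    Fintype.card_fin]
  norm_num

theorem prod_II {k : ℕ} (ω : Fin k → Let) :
    ∏ i ∈ range (5 * k + 6), len (II ω i) = 1 / 1024 * ∏ b : Fin k, g (ω b) := by
  rw [show 5 * k + 6 = 3 + (5 * k + 3) from by ring, prod_range_add, prod_range_add, prod_blocks]
  have h1 : ∏ i ∈ range 3, len (II ω i) = 1 / 32 := by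
    simp only [prod_range_succ, range_zero, prod_empty, II, len]
    norm_num
  have h2 : ∏ i ∈ range 3, len (II ω (3 + (5 * k + i))) = 1 / 32 := by
    have e0 : II ω (3 + (5 * k + 0)) = (3 / 4, 1) := by
      unfold II
      rw [if_neg (by omega), if_neg (by omega), if_neg (by omega), if_neg (by omega),
        if_pos (by omega)]
    have e1 : II ω (3 + (5 * k + 1)) = (0, 1 / 4) := by
      unfold II
      rw [if_neg (by omega), if_neg (by omega), if_neg (by omega), if_neg (by omega),
        if_neg (by omega), if_pos (by omega)]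
    have e2 : II ω (3 + (5 * k + 2)) = (1 / 4, 3 / 4) := by
      unfold II
      rw [if_neg (by omega), if_neg (by omega), if_neg (by omega), if_neg (by omega),
        if_neg (by omega), if_neg (by omega)]
    simp only [prod_range_succ, range_zero, prod_empty, e0, e1, e2, len]
    norm_num
  have h3 : ∏ b ∈ range k, ∏ r ∈ range 5, len (II ω (3 + (5 * b + r))) = ∏ b : Fin k, g (ω b) := by
    rw [Finset.prod_range]
    apply prod_congr rfl
    intro b _
    unfold g
    apply prod_congr rfl
    intro r hr
    rw [II_mid ω b b.2 r (by simpa using hr)]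
  rw [h1, h2, h3]
  ring

theorem sum_words (k : ℕ) :
    ∑ ω : Fin k → Let, (1 / 1024 : ℝ) * ∏ b : Fin k, g (ω b) = 1 / 1024 * (257 / 256) ^ k := by
  rw [← mul_sum, ← sum_g, Fintype.sum_pow]

/-- The box of a word. -/
def B {k : ℕ} (ω : Fin k → Let) : Set (Fin (5 * k + 6) → ℝ) :=
  Set.pi Set.univ fun i => Set.Ioo (II ω i).1 (II ω i).2

theorem B_meas {k : ℕ} (ω : Fin k → Let) : MeasurableSet (B ω) :=
  MeasurableSet.univ_pi fun _ => measurableSet_Ioo

theorem B_vol {k : ℕ} (ω : Fin k → Let) :
    volume (B ω) = ENNReal.ofReal (1 / 1024 * ∏ b : Fin k, g (ω b)) := by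
  unfold B
  rw [volume_pi_pi, ← prod_II ω, ← Fin.prod_univ_eq_prod_range (fun i => len (II ω i))]
  simp only [Real.volume_Ioo]
  rw [ENNReal.ofReal_prod_of_nonneg]
  · rfl
  · intro i _
    have := (II_bd ω i).2.2
    unfold len
    linarith

theorem Tl_true (l : Let) (r : ℕ) (hr : r < 5) (h : Tl l r = true) :
    (1 / 2 ≤ (Il l r).1) ∨ (l = none ∧ r = 2) := by
  rcases l with _ | t
  · simp only [Tl, decide_eq_true_eq] at h
    rcases h with h | h | h
    · left; simp [Il, h]
    · left; simp [Il, h]
    · right; exact ⟨rfl, h⟩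
  · left
    simp only [Tl, hr, dif_pos] at h
    simp [Il, hr, h]

theorem Tl_false (l : Let) (r : ℕ) (h : Tl l r = false) : (Il l r).2 ≤ 1 / 2 := by
  rcases l with _ | t
  · simp only [Tl, decide_eq_false_iff_not, not_or] at h
    simp only [Il]
    rw [if_neg (by tauto)]
    split_ifs <;> norm_num
  · simp only [Tl] at h
    simp only [Il]
    split_ifs at h ⊢ with h1 h2
    · simp [h2] at h
    · norm_num
    · norm_num

theorem B_NC {k : ℕ} (ω : Fin k → Let) (y : Fin (5 * k + 6) → ℝ) (hy : y ∈ B ω) :
    (∀ i, 0 ≤ y i ∧ y i ≤ 1) ∧ NC (fun i : Fin (5 * k + 6) => TT ω i) y := by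
  have hy' : ∀ i : Fin (5 * k + 6), (II ω i).1 < y i ∧ y i < (II ω i).2 := by
    intro i
    have := hy i (Set.mem_univ _)
    exact this
  constructor
  · intro i
    have h1 := hy' i
    have h2 := II_bd ω i
    constructor <;> linarith [h1.1, h1.2, h2.1, h2.2.1]
  set Y : ℕ → ℝ := fun i => if h : i < 5 * k + 6 then y ⟨i, h⟩ else 0 with hYdef
  have hY : ∀ i (h : i < 5 * k + 6), Y i = y ⟨i, h⟩ := by
    intro i h
    simp only [hYdef, dif_pos h]
  have hYb : ∀ i, i < 5 * k + 6 → (II ω i).1 < Y i ∧ Y i < (II ω i).2 := by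
    intro i h
    rw [hY i h]
    exact hy' ⟨i, h⟩
  have E0 : II ω 0 = (1 / 4, 3 / 4) := by simp [II]
  have E1 : II ω 1 = (0, 1 / 4) := by simp [II]
  have E2 : II ω 2 = (3 / 4, 1) := by simp [II]
  have E3 : II ω (5 * k + 3) = (3 / 4, 1) := by
    unfold II
    rw [if_neg (by omega), if_neg (by omega), if_neg (by omega), if_neg (by omega),
      if_pos (by omega)]
  have E4 : II ω (5 * k + 4) = (0, 1 / 4) := by
    unfold II
    rw [if_neg (by omega), if_neg (by omega), if_neg (by omega), if_neg (by omega),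
      if_neg (by omega), if_pos (by omega)]
  have E5 : II ω (5 * k + 5) = (1 / 4, 3 / 4) := by
    unfold II
    rw [if_neg (by omega), if_neg (by omega), if_neg (by omega), if_neg (by omega),
      if_neg (by omega), if_neg (by omega)]
  have F0 : TT ω 0 = false := by simp [TT]
  have F1 : TT ω 1 = false := by simp [TT]
  have F2 : TT ω 2 = true := by simp [TT]
  have F3 : TT ω (5 * k + 3) = true := by
    unfold TT
    rw [if_neg (by omega), if_neg (by omega), if_neg (by omega), if_neg (by omega),
      if_pos (by omega)]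
  have F4 : TT ω (5 * k + 4) = false := by
    unfold TT
    rw [if_neg (by omega), if_neg (by omega), if_neg (by omega), if_neg (by omega),
      if_neg (by omega)]
  have F5 : TT ω (5 * k + 5) = false := by
    unfold TT
    rw [if_neg (by omega), if_neg (by omega), if_neg (by omega), if_neg (by omega),
      if_neg (by omega)]
  have key := nc_abs (5 * k + 6) (by omega) (TT ω) Y F0 F1 F2
    (by rw [show 5 * k + 6 - 1 = 5 * k + 5 from by omega]; exact F5)
    (by rw [show 5 * k + 6 - 2 = 5 * k + 4 from by omega]; exact F4)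
    (by rw [show 5 * k + 6 - 3 = 5 * k + 3 from by omega]; exact F3)
    (by have := (hYb 0 (by omega)).1; rw [E0] at this; exact this)
    (by have := (hYb 0 (by omega)).2; rw [E0] at this; exact this)
    (by have := (hYb 1 (by omega)).2; rw [E1] at this; exact this)
    (by have := (hYb 2 (by omega)).1; rw [E2] at this; exact this)
    (by
      rw [show 5 * k + 6 - 1 = 5 * k + 5 from by omega]
      have := (hYb (5 * k + 5) (by omega)).1; rw [E5] at this; exact this)
    (by
      rw [show 5 * k + 6 - 1 = 5 * k + 5 from by omega]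
      have := (hYb (5 * k + 5) (by omega)).2; rw [E5] at this; exact this)
    (by
      rw [show 5 * k + 6 - 2 = 5 * k + 4 from by omega]
      have := (hYb (5 * k + 4) (by omega)).2; rw [E4] at this; exact this)
    (by
      rw [show 5 * k + 6 - 3 = 5 * k + 3 from by omega]
      have := (hYb (5 * k + 3) (by omega)).1; rw [E3] at this; exact this)
    (by
      intro i h3 hi hTi
      obtain ⟨b, r, hb, hr, rfl⟩ : ∃ b r, b < k ∧ r < 5 ∧ i = 3 + (5 * b + r) :=
        ⟨(i - 3) / 5, (i - 3) % 5, by omega, by omega, by omega⟩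
      rw [TT_mid ω b hb r hr] at hTi
      have h1 := hYb (3 + (5 * b + r)) (by omega)
      rw [II_mid ω b hb r hr] at h1
      rcases Tl_true _ r hr hTi with h | ⟨h, rfl⟩
      · left; linarith [h1.1]
      · right
        have m1 : 3 + (5 * b + 2) - 1 = 3 + (5 * b + 1) := by omega
        have m2 : 3 + (5 * b + 2) + 1 = 3 + (5 * b + 3) := by omega
        have m3 : 3 + (5 * b + 2) - 2 = 3 + (5 * b + 0) := by omega
        have m4 : 3 + (5 * b + 2) + 2 = 3 + (5 * b + 4) := by omega
        have q1 := hYb (3 + (5 * b + 1)) (by omega)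
        have q2 := hYb (3 + (5 * b + 3)) (by omega)
        rw [II_mid ω b hb 1 (by omega), h] at q1
        rw [II_mid ω b hb 3 (by omega), h] at q2
        rw [h] at h1
        rw [m1, m2, m3, m4, TT_mid ω b hb 1 (by omega), TT_mid ω b hb 3 (by omega),
          TT_mid ω b hb 0 (by omega), TT_mid ω b hb 4 (by omega), h]
        simp only [Il] at h1 q1 q2
        norm_num at h1 q1 q2
        refine ⟨by linarith [h1.1], by simp [Tl], by linarith [q1.2], by simp [Tl],
          by linarith [q2.2], by simp [Tl], by simp [Tl]⟩)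
    (by
      intro i h3 hi hTi
      obtain ⟨b, r, hb, hr, rfl⟩ : ∃ b r, b < k ∧ r < 5 ∧ i = 3 + (5 * b + r) :=
        ⟨(i - 3) / 5, (i - 3) % 5, by omega, by omega, by omega⟩
      rw [TT_mid ω b hb r hr] at hTi
      have h1 := hYb (3 + (5 * b + r)) (by omega)
      rw [II_mid ω b hb r hr] at h1
      linarith [h1.2, Tl_false _ r hTi])
  refine ⟨?_, ?_, ?_⟩
  · intro i hi
    rcases hi with hi | hi
    · simp only [hi]; exact F0
    · have : i.val = 5 * k + 5 := by omega
      simp only [this]; exact F5
  · intro i kk j hik hkj hi hj hl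
    have := key.1 i kk j hik hkj j.2 hi hj (fun l h1 h2 => hl ⟨l, by omega⟩ h1 h2)
    rw [hY i i.2, hY kk kk.2, hY j j.2] at this
    exact this
  · intro i kk j hik hkj hi hj hl
    have := key.2 i kk j hik hkj j.2 hi hj (fun l h1 h2 => hl ⟨l, by omega⟩ h1 h2)
    rw [hY i i.2, hY kk kk.2, hY j j.2] at this
    exact this

theorem B_disj {k : ℕ} (ω ω' : Fin k → Let) (hne : ω ≠ ω')
    (h : (fun i : Fin (5 * k + 6) => TT ω i) = fun i : Fin (5 * k + 6) => TT ω' i) :
    Disjoint (B ω) (B ω') := by
  obtain ⟨b, hb⟩ : ∃ b, ω b ≠ ω' b := by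
    by_contra hcon
    push Not at hcon
    exact hne (funext hcon)
  have hT : ∀ r, r < 5 → Tl (ω b) r = Tl (ω' b) r := by
    intro r hr
    have h1 := congrFun h ⟨3 + (5 * b.val + r), by have := b.2; omega⟩
    simp only at h1
    rw [TT_mid ω b b.2 r hr, TT_mid ω' b b.2 r hr] at h1
    exact h1
  -- one of the letters is the additional one, the other one has `true` in the middle
  have hmid : ∀ (l l' : Let), l ≠ l' → (∀ r, r < 5 → Tl l r = Tl l' r) →
      (Il l 2).2 ≤ (Il l' 2).1 ∨ (Il l' 2).2 ≤ (Il l 2).1 := by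
    intro l l' hll hr
    rcases l with _ | t <;> rcases l' with _ | t'
    · exact absurd rfl hll
    · have h2 := hr 2 (by omega)
      simp only [Tl] at h2
      have h3 : t' 2 = true := by simpa using h2.symm
      left
      simp only [Il]
      simp [h3]
    · have h2 := hr 2 (by omega)
      simp only [Tl] at h2
      have h3 : t 2 = true := by simpa using h2
      right
      simp only [Il]
      simp [h3]
    · exfalso
      apply hll
      congr 1
      funext r
      have h2 := hr r r.2
      simpa [Tl] using h2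
  rw [Set.disjoint_left]
  intro y hy hy'
  have h1 := hy ⟨3 + (5 * b.val + 2), by have := b.2; omega⟩ (Set.mem_univ _)
  have h2 := hy' ⟨3 + (5 * b.val + 2), by have := b.2; omega⟩ (Set.mem_univ _)
  simp only [II_mid ω b b.2 2 (by omega), Set.mem_Ioo] at h1
  simp only [II_mid ω' b b.2 2 (by omega), Set.mem_Ioo] at h2
  rcases hmid _ _ hb hT with h3 | h3
  · linarith [h1.2, h2.1]
  · linarith [h1.1, h2.2]

theorem vol_Q0 : volume Q0 = 1 := by
  have : Q0 = Set.Icc (0 : ℝ) 1 ×ˢ Set.Icc (0 : ℝ) 1 := by
    ext p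
    simp only [Q0, Set.mem_prod, Set.mem_Icc]
    constructor
    · rintro ⟨h1, h2, h3, h4⟩
      exact ⟨⟨h1, h2⟩, ⟨h3, h4⟩⟩
    · rintro ⟨⟨h1, h2⟩, ⟨h3, h4⟩⟩
      exact ⟨h1, h2, h3, h4⟩
  rw [this, Measure.volume_eq_prod, Measure.prod_prod]
  simp

theorem vc_fin (n : ℕ) : vc n Q0 ≤ 1 := by
  have h1 : {x : Fin n → E | (∀ i, x i ∈ Q0) ∧ Cl (finRotate n) x} ⊆
      Set.pi Set.univ fun _ => Q0 := by
    intro x hx i _
    exact hx.1 i
  refine (measure_mono h1).trans ?_
  rw [volume_pi_pi]
  simp [vol_Q0]

theorem mo3 (h : G_MO2) : G_MO3 := by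
  classical
  have main : ∀ k : ℕ, 1 / 1024 * (257 / 256 : ℝ) ^ k ≤ w (5 * k + 6) Q0 := by
    intro k
    let W : (Fin (5 * k + 6) → Bool) → Finset (Fin k → Let) := fun τ =>
      univ.filter fun ω => (fun i : Fin (5 * k + 6) => TT ω i) = τ
    have h1 := h (5 * k + 6) (fun τ => ⋃ ω ∈ W τ, B ω) (by omega)
      (fun τ => Finset.measurableSet_biUnion _ fun ω _ => B_meas ω)
      (by
        intro τ y hy
        simp only [Set.mem_iUnion, exists_prop] at hy
        obtain ⟨ω, hω, hy⟩ := hy
        simp only [W, mem_filter, mem_univ, true_and] at hω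
        rw [← hω]
        exact B_NC ω y hy)
    have h2 : ∑ τ : Fin (5 * k + 6) → Bool, volume (⋃ ω ∈ W τ, B ω) =
        ENNReal.ofReal (1 / 1024 * (257 / 256 : ℝ) ^ k) := by
      have h3 : ∀ τ : Fin (5 * k + 6) → Bool, volume (⋃ ω ∈ W τ, B ω) =
          ∑ ω ∈ W τ, ENNReal.ofReal (1 / 1024 * ∏ b : Fin k, g (ω b)) := by
        intro τ
        rw [measure_biUnion_finset]
        · exact sum_congr rfl fun ω _ => B_vol ω
        · intro ω hω ω' hω' hne
          simp only [W, coe_filter, mem_univ, true_and, Set.mem_ofPred_eq] at hω hω'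
          exact B_disj ω ω' hne (hω.trans hω'.symm)
        · intro ω _
          exact B_meas ω
      rw [sum_congr rfl fun τ _ => h3 τ]
      rw [sum_fiberwise, ← sum_words, ENNReal.ofReal_sum_of_nonneg]
      intro ω _
      have : ∀ l, 0 ≤ g l := by
        intro l
        rcases l with _ | t
        · rw [g_none]; norm_num
        · rw [g_some]; norm_num
      have h4 : 0 ≤ ∏ b : Fin k, g (ω b) := prod_nonneg fun b _ => this _
      positivity
    rw [h2] at h1
    have hfin : ((5 * k + 6).factorial : ENNReal) * vc (5 * k + 6) Q0 ≠ ⊤ := by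
      apply ENNReal.mul_ne_top (ENNReal.natCast_ne_top _)
      exact ne_top_of_le_ne_top ENNReal.one_ne_top (vc_fin _)
    have h5 := ENNReal.toReal_mono hfin h1
    rw [ENNReal.toReal_ofReal (by positivity), ENNReal.toReal_mul, ENNReal.toReal_natCast] at h5
    unfold w ar vr
    rw [vol_Q0]
    simpa using h5
  set q : ℝ := 257 / 256 with hq
  have hq1 : 0 < Real.log q := Real.log_pos (by rw [hq]; norm_num)
  refine ⟨Real.log q / 10, by positivity, fun N => ?_⟩
  obtain ⟨k0, hk0⟩ := exists_nat_gt ((2 * Real.log 1024 + 2 * Real.log q) / Real.log q)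
  refine ⟨5 * (max k0 N) + 6, by have := le_max_right k0 N; omega, ?_⟩
  refine le_trans ?_ (main _)
  set k := max k0 N with hk
  have hk1 : (k0 : ℝ) ≤ k := by exact_mod_cast le_max_left k0 N
  have h1 : 2 * Real.log 1024 + 2 * Real.log q < k * Real.log q := by
    have := hk0.trans_le hk1
    rwa [div_lt_iff₀ hq1] at this
  have h2 : (1 / 1024 * q ^ k : ℝ) = Real.exp (k * Real.log q - Real.log 1024) := by
    rw [Real.exp_sub, Real.exp_log (by norm_num), Real.exp_nat_mul, Real.exp_log (by
      rw [hq]; norm_num)]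
    ring
  rw [h2]
  apply Real.exp_le_exp.mpr
  push_cast
  nlinarith

end RP.PkMO3
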